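import Pool.Agent.Helper72.MK.Goals

/-!
# MK-QVS: symmetry of the quarter function

Proof of `Pool.Agent.Helper72.MK.QVSStmt` from `BODYStmt`.
-/

open MeasureTheory Set Filter Topology
open scoped ENNReal Quaternion
open Pool.Agent.Helper47.AQ Pool.Agent.Helper72.MK

namespace Pool.Agent.Helper13.MK

theorem half_neg (L : Set (Fin 3 → ℝ)) (hs : ∀ x ∈ L, -x ∈ L)
    (F w : (Fin 3 → ℝ) → ℝ) (hF : Continuous F) (hFn : ∀ x, F (-x) = -F x)
    (hwn : ∀ x, w (-x) = w x) (hw0 : ∀ x, 0 ≤ w x) :
    volume (L ∩ {x | w x < |F x|}) = 2 * volume (L ∩ {x | w x < F x}) := by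
  have hm : MeasurableSet {x : Fin 3 → ℝ | 0 < F x} :=
    (isOpen_lt continuous_const hF).measurableSet
  rw [← measure_inter_add_sdiff (L ∩ {x | w x < |F x|}) hm]
  have h1 : L ∩ {x | w x < |F x|} ∩ {x | 0 < F x} = L ∩ {x | w x < F x} := by
    ext x
    constructor
    · rintro ⟨⟨hx, h1⟩, h2⟩
      refine ⟨hx, ?_⟩
      have h1' : w x < |F x| := h1
      have h2' : 0 < F x := h2
      rw [abs_of_pos h2'] at h1'
      exact h1'
    · rintro ⟨hx, h1⟩
      have h1' : w x < F x := h1
      have h2' : 0 < F x := (hw0 x).trans_lt h1'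
      refine ⟨⟨hx, ?_⟩, h2'⟩
      show w x < |F x|
      rw [abs_of_pos h2']
      exact h1'
  have h2 : (L ∩ {x | w x < |F x|}) \ {x | 0 < F x} = -(L ∩ {x | w x < F x}) := by
    ext x
    rw [Set.mem_neg]
    constructor
    · rintro ⟨⟨hx, h1⟩, h2⟩
      have h1' : w x < |F x| := h1
      have h2' : F x ≤ 0 := not_lt.mp h2
      refine ⟨hs x hx, ?_⟩
      show w (-x) < F (-x)
      rw [hwn, hFn]
      rwa [abs_of_nonpos h2'] at h1'
    · rintro ⟨hx, h1⟩
      have h1' : w (-x) < F (-x) := h1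
      rw [hwn, hFn] at h1'
      have h2' : F x < 0 := by
        have := hw0 x
        linarith
      refine ⟨⟨?_, ?_⟩, not_lt.mpr h2'.le⟩
      · have := hs (-x) hx
        rwa [neg_neg] at this
      · show w x < |F x|
        rw [abs_of_neg h2']
        exact h1'
  rw [h1, h2, Measure.measure_neg, two_mul]

theorem ip_add_right (x a b : Fin 3 → ℝ) : ip x (a + b) = ip x a + ip x b := by
  unfold ip
  rw [← Finset.sum_add_distrib]
  exact Finset.sum_congr rfl fun i _ => by rw [Pi.add_apply]; ring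

theorem ip_smul_right (x a : Fin 3 → ℝ) (t : ℝ) : ip x (t • a) = t * ip x a := by
  unfold ip
  rw [Finset.mul_sum]
  exact Finset.sum_congr rfl fun i _ => by rw [Pi.smul_apply, smul_eq_mul]; ring

theorem ip_neg_left (x a : Fin 3 → ℝ) : ip (-x) a = -ip x a := by
  unfold ip
  rw [← Finset.sum_neg_distrib]
  exact Finset.sum_congr rfl fun i _ => by rw [Pi.neg_apply]; ring

theorem ip_continuous (a : Fin 3 → ℝ) : Continuous fun x => ip x a := by
  unfold ip
  fun_prop

theorem null_hyper (a : Fin 3 → ℝ) (ha : a ≠ 0) :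
    volume {x : Fin 3 → ℝ | ip x a = 0} = 0 := by
  let φ : (Fin 3 → ℝ) →ₗ[ℝ] ℝ := ∑ i, a i • LinearMap.proj i
  have hφ : ∀ x, φ x = ip x a := by
    intro x
    simp only [φ, LinearMap.sum_apply, LinearMap.smul_apply, LinearMap.proj_apply, smul_eq_mul]
    unfold ip
    exact Finset.sum_congr rfl fun i _ => mul_comm _ _
  have h1 : {x : Fin 3 → ℝ | ip x a = 0} = (LinearMap.ker φ : Set (Fin 3 → ℝ)) := by
    ext x
    rw [SetLike.mem_coe, LinearMap.mem_ker, hφ]
    rfl
  rw [h1]
  refine Measure.addHaar_submodule _ _ ?_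
  intro h2
  apply ha
  have h3 : φ a = 0 := by
    have : a ∈ LinearMap.ker φ := by rw [h2]; trivial
    rwa [LinearMap.mem_ker] at this
  rw [hφ] at h3
  unfold ip at h3
  funext i
  have h4 := (Finset.sum_eq_zero_iff_of_nonneg (fun i _ => mul_self_nonneg (a i))).mp h3 i
    (Finset.mem_univ i)
  exact mul_self_eq_zero.mp h4

/-- QVS. -/
theorem qvs (hbody : BODYStmt) : QVSStmt := by
  intro K hK u v t hli ht hq
  obtain ⟨hL, hsym⟩ := hbody (Fin 3) K hK
  have hvol : volume (dpol K) ≠ ⊤ := hL.comp.measure_lt_top.ne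
  have huv : ∀ s : ℝ, u + s • v ≠ 0 := by
    intro s h
    have h1 := LinearIndependent.pair_iff.mp hli 1 s (by rw [one_smul]; exact h)
    exact one_ne_zero h1.1
  -- the null set
  have hnull : volume {x : Fin 3 → ℝ | |ip x u| = t * |ip x v|} = 0 := by
    refine measure_mono_null (t := {x | ip x (u + (-t) • v) = 0} ∪ {x | ip x (u + t • v) = 0})
      ?_ (measure_union_null (null_hyper _ (huv _)) (null_hyper _ (huv _)))
    intro x hx
    have hx' : |ip x u| = t * |ip x v| := hx
    rw [← abs_of_pos ht, ← abs_mul, abs_eq_abs] at hx'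
    rcases hx' with h | h
    · left
      show ip x (u + (-t) • v) = 0
      rw [ip_add_right, ip_smul_right, h]
      ring
    · right
      show ip x (u + t • v) = 0
      rw [ip_add_right, ip_smul_right, h]
      ring
  have h1 := half_neg (dpol K) hsym (fun x => ip x u) (fun x => t * |ip x v|) (ip_continuous u)
    (fun x => ip_neg_left x u) (fun x => by rw [ip_neg_left, abs_neg])
    (fun x => mul_nonneg ht.le (abs_nonneg _))
  have h2 := half_neg (dpol K) hsym (fun x => t * ip x v) (fun x => |ip x u|)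
    (continuous_const.mul (ip_continuous v)) (fun x => by rw [ip_neg_left]; ring)
    (fun x => by rw [ip_neg_left, abs_neg]) (fun x => abs_nonneg _)
  have hP : MeasurableSet {x : Fin 3 → ℝ | t * |ip x v| < |ip x u|} :=
    (isOpen_lt (continuous_const.mul (ip_continuous v).abs) (ip_continuous u).abs).measurableSet
  have h3 := measure_inter_add_sdiff (μ := volume) (dpol K) hP
  have h4 : volume (dpol K \ {x : Fin 3 → ℝ | t * |ip x v| < |ip x u|}) =
      volume (dpol K ∩ {x | |ip x u| < |t * ip x v|}) := by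
    refine le_antisymm ?_ (measure_mono ?_)
    · have h5 : dpol K \ {x : Fin 3 → ℝ | t * |ip x v| < |ip x u|} ⊆
          (dpol K ∩ {x | |ip x u| < |t * ip x v|}) ∪ {x | |ip x u| = t * |ip x v|} := by
        rintro x ⟨hx, hx2⟩
        have hx3 : |ip x u| ≤ t * |ip x v| := not_lt.mp hx2
        rcases hx3.lt_or_eq with h | h
        · left
          refine ⟨hx, ?_⟩
          show |ip x u| < |t * ip x v|
          rwa [abs_mul, abs_of_pos ht]
        · right
          exact h
      refine (measure_mono h5).trans ((measure_union_le _ _).trans (le_of_eq ?_))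
      rw [hnull, add_zero]
    · rintro x ⟨hx, hx2⟩
      refine ⟨hx, ?_⟩
      have hx3 : |ip x u| < |t * ip x v| := hx2
      rw [abs_mul, abs_of_pos ht] at hx3
      exact not_lt.mpr hx3.le
  rw [h4, h2, h1] at h3
  -- real numbers
  have h6 : ∀ S : Set (Fin 3 → ℝ), volume (dpol K ∩ S) ≠ ⊤ := fun S =>
    ((measure_mono inter_subset_left).trans_lt hL.comp.measure_lt_top).ne
  have h7 := congrArg ENNReal.toReal h3
  rw [ENNReal.toReal_add (ENNReal.mul_ne_top (by norm_num) (h6 _))
    (ENNReal.mul_ne_top (by norm_num) (h6 _)), ENNReal.toReal_mul, ENNReal.toReal_mul] at h7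
  have h8 : (volume (dpol K ∩ {x | t * |ip x v| < ip x u})).toReal =
    (volume (dpol K)).toReal / 4 := hq
  rw [h8, ENNReal.toReal_ofNat] at h7
  have h9 : {x : Fin 3 → ℝ | t⁻¹ * |ip x (-u)| < ip x v} = {x | |ip x u| < t * ip x v} := by
    ext x
    have h10 : ip x (-u) = -ip x u := by
      have := ip_smul_right x u (-1)
      rw [neg_smul, one_smul] at this
      rw [this]
      ring
    show t⁻¹ * |ip x (-u)| < ip x v ↔ |ip x u| < t * ip x v
    rw [h10, abs_neg, inv_mul_lt_iff₀ ht]
  unfold QV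
  rw [h9]
  linarith

end Pool.Agent.Helper13.MK
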